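import Mathlib
import Pool.Agent.Q98.SG.M

/-!
# Galois extensions of number fields: ramification and Frobenius elements over a rational prime
-/

set_option autoImplicit false

open NumberField
open scoped Pointwise

namespace Pool.Agent.J4H53.VG

open Pool.Agent.W738.SAL Pool.Agent.Q98.SG

section base

variable (F : Type) [Field F] [NumberField F] {p : ℕ}

/-- the primes over `p` are the primes which contain `p` -/
lemma above_of_over (hp : p.Prime) {P : Ideal (𝓞 F)} :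
    P ∈ (Ideal.span {(p : ℤ)}).primesOver (𝓞 F) ↔ P ∈ primesAbove F p := by
  constructor
  · rintro ⟨h1, h2⟩
    refine ⟨h1, ?_⟩
    have h3 : (p : ℤ) ∈ P.under ℤ := by
      rw [← h2.over]; exact Ideal.subset_span rfl
    simpa [Ideal.under_def, Ideal.mem_comap] using h3
  · rintro ⟨h1, h2⟩
    exact ⟨h1, lies hp P h1 h2⟩

lemma sum_id (hp : p.Prime) [Fintype ((Ideal.span {(p : ℤ)}).primesOver (𝓞 F))] :
    ∑ q : (Ideal.span {(p : ℤ)}).primesOver (𝓞 F), q.1.ramificationIdx ℤ * q.1.inertiaDeg ℤ =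
      Module.finrank ℚ F := by
  have hm := maxZ hp
  rw [Ideal.sum_ramification_inertia_eq_finrank, RingOfIntegers.rank]

lemma term_le (hp : p.Prime) {P : Ideal (𝓞 F)} (hP : P ∈ primesAbove F p) :
    0 < P.ramificationIdx ℤ ∧ 0 < P.inertiaDeg ℤ ∧
      P.ramificationIdx ℤ * P.inertiaDeg ℤ ≤ Module.finrank ℚ F := by
  classical
  have hm := maxZ hp
  have hfin : ((Ideal.span {(p : ℤ)}).primesOver (𝓞 F)).Finite :=
    (primesAbove_finite F hp).subset fun P h => (above_of_over F hp).1 h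
  have := hfin.fintype
  have h0 := (above_of_over F hp).2 hP
  have := h0.1
  have := h0.2
  refine ⟨P.ramificationIdx_pos ℤ, P.inertiaDeg_pos ℤ, ?_⟩
  rw [← sum_id F hp]
  exact Finset.single_le_sum (f := fun q : (Ideal.span {(p : ℤ)}).primesOver (𝓞 F) =>
    q.1.ramificationIdx ℤ * q.1.inertiaDeg ℤ) (fun _ _ => Nat.zero_le _)
    (Finset.mem_univ (⟨P, h0⟩ : (Ideal.span {(p : ℤ)}).primesOver (𝓞 F)))

lemma ram_below (hp : p.Prime) {P : Ideal (𝓞 F)} (hP : P ∈ primesAbove F p) :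
    P.ramificationIdx ℤ ≤ Module.finrank ℚ F := by
  obtain ⟨h1, h2, h3⟩ := term_le F hp hP
  nlinarith

lemma card_above (hp : p.Prime) : (primesAbove F p).ncard ≤ Module.finrank ℚ F := by
  classical
  have hm := maxZ hp
  have hfin : ((Ideal.span {(p : ℤ)}).primesOver (𝓞 F)).Finite :=
    (primesAbove_finite F hp).subset fun P h => (above_of_over F hp).1 h
  have hfi := hfin.fintype
  have he : primesAbove F p = (Ideal.span {(p : ℤ)}).primesOver (𝓞 F) :=
    Set.ext fun P => (above_of_over F hp).symm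
  rw [he, ← sum_id F hp, Set.ncard_eq_toFinset_card', Set.toFinset_card, Fintype.card_eq_sum_ones]
  refine Finset.sum_le_sum fun q _ => ?_
  obtain ⟨h1, h2, h3⟩ := term_le F hp ((above_of_over F hp).1 q.2)
  exact Nat.mul_pos h1 h2

lemma deg_below (hp : p.Prime) {P : Ideal (𝓞 F)} (hP : P ∈ primesAbove F p) :
    ∃ g : ℕ, 0 < g ∧ g ≤ Module.finrank ℚ F ∧ Nat.card (𝓞 F ⧸ P) = p ^ g := by
  have : Fact p.Prime := ⟨hp⟩
  obtain ⟨g, hg0, hg⟩ := card_quot P hP.1 hP.2
  refine ⟨g, hg0, ?_, hg⟩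
  have h1 : Ideal.absNorm P ∣ Ideal.absNorm (Ideal.span {(p : 𝓞 F)}) :=
    Ideal.absNorm_dvd_absNorm_of_le ((Ideal.span_singleton_le_iff_mem _).2 hP.2)
  have h2 : Ideal.absNorm P = p ^ g := by
    rw [← hg]; rfl
  have h3 : Ideal.absNorm (Ideal.span {(p : 𝓞 F)}) = p ^ (Module.finrank ℚ F) := by
    rw [Ideal.absNorm_span_natCast, RingOfIntegers.rank]
  rw [h2, h3] at h1
  exact (Nat.pow_dvd_pow_iff_le_right hp.one_lt).1 h1

end base

/-- the primes over `p` are not zero -/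
lemma ne_bot_of {F : Type} [Field F] [NumberField F] {p : ℕ} (hp : p.Prime) {P : Ideal (𝓞 F)}
    (hP : P ∈ primesAbove F p) : P ≠ ⊥ := by
  rintro rfl
  have : (p : 𝓞 F) = 0 := by simpa using hP.2
  exact hp.ne_zero (by exact_mod_cast this)

section rel

variable {F L : Type} [Field F] [NumberField F] [Field L] [NumberField L] [Algebra F L]
  [IsGalois F L] {p : ℕ}

omit [NumberField F] [NumberField L] [IsGalois F L] in
lemma under_above {Q : Ideal (𝓞 L)} (hQ : Q ∈ primesAbove L p) :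
    Q.under (𝓞 F) ∈ primesAbove F p := by
  have := hQ.1
  refine ⟨Ideal.IsPrime.under (𝓞 F) Q, ?_⟩
  rw [Ideal.under_def, Ideal.mem_comap]
  simpa using hQ.2

lemma ram_rel (hp : p.Prime) {Q : Ideal (𝓞 L)} (hQ : Q ∈ primesAbove L p) :
    Q.ramificationIdx ℤ ≤ Module.finrank ℚ F * Nat.card (Q.inertia (L ≃ₐ[F] L)) := by
  have hQ1 := hQ.1
  have hu := under_above (F := F) hQ
  have hu1 := hu.1
  have h0 : Q.under (𝓞 F) ≠ ⊥ := ne_bot_of hp hu
  have hmx : (Q.under (𝓞 F)).IsMaximal := hu1.isMaximal h0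
  have h1 : Q.ramificationIdx ℤ = (Q.under (𝓞 F)).ramificationIdx ℤ * Q.ramificationIdx (𝓞 F) :=
    Ideal.ramificationIdx_tower (R := ℤ) (Q.under (𝓞 F)) Q
  have h2 : Nat.card (Q.inertia (L ≃ₐ[F] L)) = Q.ramificationIdx (𝓞 F) := by
    rw [Ideal.card_inertia_eq_ramificationIdxIn (G := L ≃ₐ[F] L) (Q.under (𝓞 F)) Q,
      Ideal.ramificationIdxIn_eq_ramificationIdx (Q.under (𝓞 F)) Q (L ≃ₐ[F] L)]
  rw [h1, h2]
  exact Nat.mul_le_mul_right _ (ram_below F hp hu)

end rel

end Pool.Agent.J4H53.VG
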