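import Mathlib
import Pool.Agent.Q98.SG.T

/-!
# The tame character and a commuting Frobenius element
-/

set_option autoImplicit false

namespace Pool.Agent.J4H53.VG

open Pool.Agent.Q98.SG

section

variable {S : Type*} [CommRing S] [IsDedekindDomain S] {G : Type*} [Group G]
  [MulSemiringAction G S] {P : Ideal S} [hPp : P.IsPrime]

/-- the tame character with its values -/
theorem tame_char' (hP0 : P ≠ ⊥) :
    ∃ π : S, π ∈ P ∧ (∀ y ∈ P, ∃ a : S, ∃ e ∈ P ^ 2, π * a + e = y) ∧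
      (∀ a : S, π * a ∈ P ^ 2 → a ∈ P) ∧
      ∃ θ : P.inertia G →* (S ⧸ P), ∀ σ : P.inertia G, ∃ u : S,
        θ σ = Ideal.Quotient.mk P u ∧ (σ : G) • π - π * u ∈ P ^ 2 := by
  classical
  have hlt := Ideal.pow_succ_lt_pow hP0 1
  obtain ⟨π, hπ1, hπ2⟩ := Set.exists_of_ssubset hlt
  have hπ1' : π ∈ P ^ 1 := hπ1
  have hπ2' : π ∉ P ^ (1 + 1) := hπ2
  have hπ : π ∈ P := by rwa [pow_one] at hπ1'
  have hgen : ∀ y ∈ P, ∃ a : S, ∃ e ∈ P ^ 2, π * a + e = y := by
    intro y hy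
    exact Ideal.exists_mul_add_mem_pow_succ hP0 π y hπ1' hπ2' (by rwa [pow_one])
  have hu : ∀ σ : P.inertia G, ∃ a : S, (σ : G) • π - π * a ∈ P ^ 2 := by
    intro σ
    obtain ⟨a, e, he, h⟩ := hgen _ (smul_mem σ.2 hπ)
    refine ⟨a, ?_⟩
    rw [← h, add_sub_cancel_left]
    exact he
  choose u hu using hu
  have huniq : ∀ a b : S, π * a - π * b ∈ P ^ 2 → a - b ∈ P := by
    intro a b h
    rw [← mul_sub] at h
    exact Ideal.mem_prime_of_mul_mem_pow hP0 hπ2' h
  refine ⟨π, hπ, hgen, fun a h => Ideal.mem_prime_of_mul_mem_pow hP0 hπ2' h,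
    ⟨⟨fun σ => Ideal.Quotient.mk P (u σ), ?_⟩, ?_⟩, fun σ => ⟨u σ, rfl, hu σ⟩⟩
  · rw [← map_one (Ideal.Quotient.mk P), Ideal.Quotient.eq]
    apply huniq
    have h1 := hu 1
    rw [OneMemClass.coe_one, one_smul] at h1
    have h2 : π * u 1 - π * 1 = -(π - π * u 1) := by ring
    rw [h2]
    exact Ideal.neg_mem_iff _ |>.2 h1
  · intro σ τ
    simp only
    rw [← map_mul, Ideal.Quotient.eq]
    apply huniq
    have h1 := hu (σ * τ)
    have h2 := hu τ
    have h3 := hu σ
    have h4 : ((σ * τ : P.inertia G) : G) • π = (σ : G) • ((τ : G) • π) := by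
      rw [Subgroup.coe_mul, mul_smul]
    have h5 := smul_mem_pow σ.2 h2
    rw [smul_sub, smul_mul', ← h4] at h5
    have h6 : π * u (σ * τ) - π * (u σ * u τ) =
        -(((σ * τ : P.inertia G) : G) • π - π * u (σ * τ)) +
        (((σ * τ : P.inertia G) : G) • π - (σ : G) • π * (σ : G) • u τ) +
        ((σ : G) • π - π * u σ) * (σ : G) • u τ + π * u σ * ((σ : G) • u τ - u τ) := by ring
    rw [h6]
    refine Ideal.add_mem _ (Ideal.add_mem _ (Ideal.add_mem _ ((Ideal.neg_mem_iff _).2 h1) h5)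
      (Ideal.mul_mem_right _ _ h3)) ?_
    have h7 : π * u σ * ((σ : G) • u τ - u τ) = u σ * (π * ((σ : G) • u τ - u τ)) := by ring
    rw [h7]
    apply Ideal.mul_mem_left
    rw [pow_two]
    exact Ideal.mul_mem_mul hπ (inert_smul σ.2 _)

omit [IsDedekindDomain S] hPp in
/-- `s ^ k` is the `N ^ k`-th power modulo `Q` -/
lemma iter {Q : Ideal S} {N : ℕ} {s : G} (hx : ∀ x : S, x ^ N - s • x ∈ Q) (k : ℕ) (x : S) :
    x ^ (N ^ k) - s ^ k • x ∈ Q := by
  induction k with
  | zero => simp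
  | succ k ih =>
    have h1 := hx (s ^ k • x)
    have h2 : (x ^ (N ^ k)) ^ N - (s ^ k • x) ^ N ∈ Q := by
      obtain ⟨w, hw⟩ := sub_dvd_pow_sub_pow (x ^ (N ^ k)) (s ^ k • x) N
      rw [hw]
      exact Q.mul_mem_right _ ih
    have h3 : x ^ (N ^ (k + 1)) - s ^ (k + 1) • x =
        ((x ^ (N ^ k)) ^ N - (s ^ k • x) ^ N) + ((s ^ k • x) ^ N - s • s ^ k • x) := by
      rw [← pow_mul, ← pow_succ, pow_succ' s, mul_smul]
      ring
    rw [h3]
    exact Q.add_mem h2 h1

omit [IsDedekindDomain S] hPp in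
lemma pow_stable {φ : G} (h : ∀ x ∈ P, φ • x ∈ P) (i : ℕ) : ∀ x ∈ P ^ i, φ • x ∈ P ^ i := by
  intro x hx
  have h1 : P ≤ P.comap (MulSemiringAction.toRingHom G S φ) := fun y hy => h y hy
  have h2 : P ^ i ≤ (P ^ i).comap (MulSemiringAction.toRingHom G S φ) :=
    (Ideal.pow_right_mono h1 i).trans (Ideal.le_comap_pow _ _)
  exact h2 hx

/-- the order of the tame quotient: if a commuting element acts as the `q`-th power modulo `P`,
the inertia group is, up to the factor `q`, a `p`-group -/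
theorem tame_bound [Finite G] [FaithfulSMul G S] (hP0 : P ≠ ⊥) [Finite (S ⧸ P)] {p : ℕ}
    (hp : p.Prime) (hpP : (p : S) ∈ P) {q : ℕ} (hq : 2 ≤ q) {φ : G}
    (hφ : ∀ x : S, x ^ q - φ • x ∈ P) (hcomm : ∀ σ ∈ P.inertia G, σ * φ = φ * σ) :
    ∃ W : Subgroup G, IsPGroup p W ∧ Nat.card (P.inertia G) ≤ q * Nat.card W := by
  classical
  obtain ⟨π, hπ, hgen, hcan, θ, hθ⟩ := tame_char' (G := G) (P := P) hP0
  have hmax : P.IsMaximal := hPp.isMaximal hP0
  let _ : Field (S ⧸ P) := Ideal.Quotient.field P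
  have hφP : ∀ x ∈ P, φ • x ∈ P := by
    intro x hx
    have h1 : x ^ q ∈ P := Ideal.pow_mem_of_mem P hx q (by omega)
    have h2 := P.sub_mem h1 (hφ x)
    rwa [sub_sub_cancel] at h2
  have hφinv : ∀ x ∈ P, φ⁻¹ • x ∈ P := by
    have h1 : ∀ (k : ℕ) (x : S), x ∈ P → φ ^ k • x ∈ P := by
      intro k
      induction k with
      | zero => intro x hx; simpa using hx
      | succ k ih =>
        intro x hx
        rw [pow_succ', mul_smul]
        exact hφP _ (ih x hx)
    intro x hx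
    have h2 : φ⁻¹ = φ ^ (orderOf φ - 1) := by
      have h0 : 0 < orderOf φ := orderOf_pos φ
      rw [inv_eq_iff_mul_eq_one, ← pow_succ', Nat.sub_add_cancel h0, pow_orderOf_eq_one]
    rw [h2]
    exact h1 _ x hx
  obtain ⟨a, e, he, hae⟩ := hgen _ (hφP π hπ)
  have haP : a ∉ P := by
    intro ha
    have h1 : φ • π ∈ P ^ 2 := by
      rw [← hae]
      refine Ideal.add_mem _ ?_ he
      rw [pow_two]
      exact Ideal.mul_mem_mul hπ ha
    have h2 := pow_stable hφinv 2 _ h1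
    rw [inv_smul_smul] at h2
    have h3 : (1 : S) ∈ P := hcan 1 (by rwa [mul_one])
    exact hPp.ne_top ((Ideal.eq_top_iff_one P).2 h3)
  have hpow : ∀ σ : P.inertia G, θ σ ^ q = θ σ := by
    intro σ
    obtain ⟨u, hu1, hu2⟩ := hθ σ
    have h1 : (σ : G) • (φ • π) = φ • ((σ : G) • π) := by
      rw [← mul_smul, ← mul_smul, hcomm _ σ.2]
    -- the left side
    have h2 : (σ : G) • (φ • π) - π * (u * a) ∈ P ^ 2 := by
      rw [← hae, smul_add, smul_mul']
      have h3 : (σ : G) • π * (σ : G) • a + (σ : G) • e - π * (u * a) =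
          ((σ : G) • π - π * u) * (σ : G) • a + u * (π * ((σ : G) • a - a)) + (σ : G) • e := by ring
      rw [h3]
      refine Ideal.add_mem _ (Ideal.add_mem _ (Ideal.mul_mem_right _ _ hu2) ?_)
        (smul_mem_pow σ.2 he)
      apply Ideal.mul_mem_left
      rw [pow_two]
      exact Ideal.mul_mem_mul hπ (inert_smul σ.2 _)
    -- the right side
    have h4 : φ • ((σ : G) • π) - π * (a * φ • u) ∈ P ^ 2 := by
      have h5 := pow_stable hφP 2 _ hu2
      rw [smul_sub, smul_mul'] at h5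
      have h6 : φ • ((σ : G) • π) - π * (a * φ • u) =
          (φ • ((σ : G) • π) - φ • π * φ • u) + (φ • π - π * a) * φ • u := by ring
      rw [h6]
      refine Ideal.add_mem _ h5 (Ideal.mul_mem_right _ _ ?_)
      rw [← hae, add_sub_cancel_left]
      exact he
    rw [← h1] at h4
    have h7 : π * (a * (φ • u - u)) ∈ P ^ 2 := by
      have h8 := Ideal.sub_mem _ h2 h4
      have h9 : (σ : G) • (φ • π) - π * (u * a) - ((σ : G) • (φ • π) - π * (a * φ • u)) =
          π * (a * (φ • u - u)) := by ring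
      rwa [h9] at h8
    have h10 : φ • u - u ∈ P := by
      rcases hPp.mem_or_mem (hcan _ h7) with h | h
      · exact absurd h haP
      · exact h
    have h11 : u ^ q - u ∈ P := by
      have h12 := P.add_mem (hφ u) h10
      rwa [sub_add_sub_cancel] at h12
    rw [hu1, ← map_pow, Ideal.Quotient.eq]
    exact h11
  -- the kernel
  let θ' : P.inertia G →* (S ⧸ P)ˣ := θ.toHomUnits
  have hval : ∀ σ, ((θ' σ : (S ⧸ P)ˣ) : S ⧸ P) = θ σ := fun σ => rfl
  have hker1 : ∀ w : P.inertia G, θ w = 1 → (w : G) • π - π ∈ P ^ 2 := by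
    intro w hw
    obtain ⟨u, hu1, hu2⟩ := hθ w
    rw [hw] at hu1
    have h1 : u - 1 ∈ P := by
      rw [← Ideal.Quotient.eq, map_one]; exact hu1.symm
    have h3 : (w : G) • π - π = ((w : G) • π - π * u) + π * (u - 1) := by ring
    rw [h3]
    refine Ideal.add_mem _ hu2 ?_
    rw [pow_two]
    exact Ideal.mul_mem_mul hπ h1
  have hker : ∀ w : P.inertia G, θ w = 1 → ∃ k : ℕ, (w : G) ^ (p ^ k) = 1 := by
    intro w hw
    have hw0 : 0 < orderOf (w : G) := orderOf_pos _
    obtain ⟨b, m, hm, hab⟩ := Nat.exists_eq_pow_mul_and_not_dvd hw0.ne' p hp.ne_one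
    refine ⟨b, ?_⟩
    have h3 : θ (w ^ (p ^ b)) = 1 := by rw [map_pow, hw, one_pow]
    have h4 := hker1 _ h3
    have h5 : (((w ^ (p ^ b) : P.inertia G) : G)) = (w : G) ^ (p ^ b) := by
      rw [Subgroup.coe_pow]
    rw [h5] at h4
    have h6 : (w : G) ^ (p ^ b) ∈ P.inertia G := Subgroup.pow_mem _ w.2 _
    refine tame_trivial h6 hπ hgen h4 (m := m) ?_ ?_
    · rw [← pow_mul, ← hab]
      exact pow_orderOf_eq_one _
    · intro h7
      have h8 : IsCoprime (p : ℤ) (m : ℤ) :=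
        Nat.isCoprime_iff_coprime.2 ((Nat.Prime.coprime_iff_not_dvd hp).2 hm)
      obtain ⟨x, y, hxy⟩ := h8
      apply hPp.ne_top
      rw [Ideal.eq_top_iff_one]
      have h9 : (1 : S) = (x : S) * (p : S) + (y : S) * (m : S) := by
        have := congrArg (Int.cast : ℤ → S) hxy
        push_cast at this
        exact this.symm
      rw [h9]
      exact P.add_mem (P.mul_mem_left _ hpP) (P.mul_mem_left _ h7)
  refine ⟨θ'.ker.map (P.inertia G).subtype, ?_, ?_⟩
  · rintro ⟨_, w, hw, rfl⟩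
    have hw1 : θ w = 1 := by
      have h1 : θ' w = 1 := hw
      rw [← hval, h1]
      rfl
    obtain ⟨k, hk⟩ := hker w hw1
    exact ⟨k, Subtype.ext hk⟩
  · have h1 : Nat.card (θ'.ker.map (P.inertia G).subtype) = Nat.card θ'.ker :=
      Nat.card_congr (θ'.ker.equivMapOfInjective _ (P.inertia G).subtype_injective).symm.toEquiv
    rw [h1, ← Subgroup.card_mul_index θ'.ker, Subgroup.index_ker, mul_comm]
    apply Nat.mul_le_mul_right
    have hcyc : IsCyclic θ'.range := inferInstance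
    obtain ⟨⟨_, τ, rfl⟩, hgenr⟩ := hcyc.exists_generator
    have h2 : Nat.card θ'.range = orderOf (⟨θ' τ, τ, rfl⟩ : θ'.range) :=
      (orderOf_eq_card_of_forall_mem_zpowers hgenr).symm
    rw [h2]
    have h3 : (⟨θ' τ, τ, rfl⟩ : θ'.range) ^ (q - 1) = 1 := by
      apply Subtype.ext
      apply Units.ext
      have h4 := hpow τ
      have h5 : θ τ ≠ 0 := by rw [← hval]; exact (θ' τ).ne_zero
      have h6 : θ τ ^ (q - 1) * θ τ = 1 * θ τ := by
        rw [← pow_succ, Nat.sub_add_cancel (by omega), h4, one_mul]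
      have h7 := mul_right_cancel₀ h5 h6
      simpa [hval] using h7
    exact (Nat.le_of_dvd (by omega) (orderOf_dvd_of_pow_eq_one h3)).trans (by omega)

end

end Pool.Agent.J4H53.VG
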