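import Mathlib
import Pool.Agent.J4H53.VG.R
import Pool.Agent.J4H53.VG.T

/-!
# Common powers of the Frobenius elements over a rational prime
-/

set_option autoImplicit false

open NumberField
open scoped Pointwise Nat

namespace Pool.Agent.J4H53.VG

open Pool.Agent.W738.SAL Pool.Agent.Q98.SG

variable {F L : Type} [Field F] [NumberField F] [Field L] [NumberField L] [Algebra F L]
  [IsGalois F L] {p : ℕ}

/-- the Frobenius elements above one prime of `F` -/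
theorem frob_over (hp : p.Prime) {d f : ℕ} (hf : Module.finrank ℚ F ≤ f)
    (hcen : ∀ σ τ : L ≃ₐ[F] L, σ ^ d * τ = τ * σ ^ d) {P : Ideal (𝓞 F)}
    (hP : P ∈ primesAbove F p) :
    ∃ σ : L ≃ₐ[F] L, ∀ Q ∈ primesAbove L p, Q.under (𝓞 F) = P →
      ∀ x : 𝓞 L, x ^ (p ^ (f ! * d)) - σ • x ∈ Q := by
  classical
  have hP1 := hP.1
  have hP0 : P ≠ ⊥ := ne_bot_of hp hP
  obtain ⟨g, hg0, hgf, hg⟩ := deg_below F hp hP
  have hdvd : g ∣ f ! := Nat.dvd_factorial hg0 (hgf.trans hf)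
  obtain ⟨a, ha⟩ := hdvd
  obtain ⟨Q₀⟩ : Nonempty (Ideal.primesOver P (𝓞 L)) := inferInstance
  have hfin : ∀ Q : Ideal.primesOver P (𝓞 L), Finite (𝓞 L ⧸ Q.1) := by
    intro Q
    apply Ideal.finiteQuotientOfFreeOfNeBot
    intro h4
    apply hP0
    have h2 := Q.2.2.over
    rw [h2, h4]
    exact Ideal.comap_bot_of_injective _ (FaithfulSMul.algebraMap_injective (𝓞 F) (𝓞 L))
  obtain ⟨s, hs1, hs2⟩ := IsArithFrobAt.exists_primesOver_isConj (R := 𝓞 F) (𝓞 L) (L ≃ₐ[F] L)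
    P ⟨Q₀, hfin Q₀⟩
  refine ⟨(s Q₀) ^ (d * a), ?_⟩
  intro J hJ hunder x
  have hJ2 := hJ.1
  set t := s ⟨J, hJ2, ⟨hunder.symm⟩⟩ with ht
  have hx : ∀ x : 𝓞 L, x ^ (p ^ g) - t • x ∈ J := by
    intro x
    have h1 := hs1 ⟨J, hJ2, ⟨hunder.symm⟩⟩ x
    have h3 : t • x - x ^ (p ^ g) ∈ J := by
      have h5 : Nat.card (𝓞 F ⧸ J.under (𝓞 F)) = p ^ g := by rw [hunder, hg]
      rw [← h5]; exact h1
    rw [← neg_sub]
    exact J.neg_mem h3
  have hpow : t ^ (d * a) = (s Q₀) ^ (d * a) := by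
    obtain ⟨c, hc⟩ := isConj_iff.1 (hs2 ⟨J, hJ2, ⟨hunder.symm⟩⟩ Q₀)
    have h1 : t ^ d = (s Q₀) ^ d := by
      rw [← hc, conj_pow, ← hcen, mul_assoc, mul_inv_cancel, mul_one]
    rw [pow_mul, pow_mul, h1]
  have h1 := iter hx (d * a) x
  rw [hpow] at h1
  have h2 : (p ^ g) ^ (d * a) = p ^ (f ! * d) := by
    rw [← pow_mul, ha]
    congr 1
    ring
  rwa [h2] at h1

/-- the Frobenius elements above a rational prime: at most `f` automorphisms, one exponent -/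
theorem frobs (hp : p.Prime) {d f : ℕ} (hf : Module.finrank ℚ F ≤ f)
    (hcen : ∀ σ τ : L ≃ₐ[F] L, σ ^ d * τ = τ * σ ^ d) :
    ∃ S : Finset (L ≃ₐ[F] L), S.card ≤ f ∧ ∀ Q ∈ primesAbove L p, ∃ σ ∈ S,
      ∀ x : 𝓞 L, x ^ (p ^ (f ! * d)) - σ • x ∈ Q := by
  classical
  have h := fun P (hP : P ∈ primesAbove F p) => frob_over (L := L) hp hf hcen hP
  choose! σ hσ using h
  have hfin := primesAbove_finite F hp
  refine ⟨hfin.toFinset.image σ, ?_, ?_⟩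
  · refine Finset.card_image_le.trans ?_
    rw [← Set.ncard_eq_toFinset_card _ hfin]
    exact (card_above F hp).trans hf
  · intro Q hQ
    have hu := under_above (F := F) hQ
    exact ⟨σ (Q.under (𝓞 F)), Finset.mem_image_of_mem _ (hfin.mem_toFinset.2 hu),
      hσ _ hu Q hQ rfl⟩

/-- a prime above `p` with the largest ramification index -/
theorem exists_max (hp : p.Prime) :
    ∃ Q ∈ primesAbove L p, ∀ Q' ∈ primesAbove L p, Q'.ramificationIdx ℤ ≤ Q.ramificationIdx ℤ := by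
  have hm := maxZ hp
  have hfin := primesAbove_finite L hp
  have hne : (primesAbove L p).Nonempty := by
    obtain ⟨Q₀⟩ : Nonempty (Ideal.primesOver (Ideal.span {(p : ℤ)}) (𝓞 L)) := inferInstance
    exact ⟨Q₀.1, (above_of_over L hp).1 Q₀.2⟩
  obtain ⟨Q, hQ, h⟩ := Set.exists_max_image _ (fun Q : Ideal (𝓞 L) => Q.ramificationIdx ℤ) hfin hne
  exact ⟨Q, hQ, h⟩

/-- an abelian Galois group is, up to a bounded factor, a `p`-group if the ramification is large -/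
theorem ab_bound (hp : p.Prime) {f : ℕ} (hf : Module.finrank ℚ F ≤ f)
    (hcomm : ∀ σ τ : L ≃ₐ[F] L, σ * τ = τ * σ) {Q : Ideal (𝓞 L)} (hQ : Q ∈ primesAbove L p) :
    ∃ W : Subgroup (L ≃ₐ[F] L), IsPGroup p W ∧
      Nat.card (Q.inertia (L ≃ₐ[F] L)) ≤ p ^ (f !) * Nat.card W := by
  have hQ1 := hQ.1
  have hQ0 : Q ≠ ⊥ := ne_bot_of hp hQ
  have : Finite (𝓞 L ⧸ Q) := Ideal.finiteQuotientOfFreeOfNeBot Q hQ0
  have hfa : FaithfulSMul (L ≃ₐ[F] L) (𝓞 L) :=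
    (inferInstance : IsGaloisGroup (L ≃ₐ[F] L) (𝓞 F) (𝓞 L)).faithful
  obtain ⟨S, -, hS⟩ := frobs (F := F) (L := L) hp (d := 1) hf
    (fun σ τ => by rw [pow_one]; exact hcomm σ τ)
  obtain ⟨s₁, -, hs₁⟩ := hS Q hQ
  rw [mul_one] at hs₁
  refine tame_bound (G := L ≃ₐ[F] L) hQ0 hp hQ.2 ?_ hs₁ (fun σ _ => hcomm σ s₁)
  calc 2 ≤ p := hp.two_le
    _ = p ^ 1 := (pow_one p).symm
    _ ≤ p ^ (f !) := Nat.pow_le_pow_right hp.pos (Nat.factorial_pos f)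

end Pool.Agent.J4H53.VG
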