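import Mathlib
import Pool.Agent.Q98.SG.F
import Pool.Agent.J4H53.VG.Fr

/-!
# Small trace fields: the inertia groups at a large prime are large
-/

set_option autoImplicit false

open NumberField
open scoped Pointwise Nat

namespace Pool.Agent.J4H53.VG

open Pool.Agent.W738.SAL Pool.Agent.Q98.SG

/-- If infinitely many powers of `β` are Parry numbers, the trace field is Galois over a subfield of
degree at most `f`, and the `d`-th powers are central in the Galois group, then some inertia group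
above each prime `p ≥ 16 ^ f` is large. -/
theorem inert_large {β : ℝ} (hP : IsPerron β) (hrec : IsReciprocal β)
    (hinf : ¬ (ParryPowers β).Finite) {F : Type} [Field F] [NumberField F] [Algebra F (TF β)]
    [NumberField (TF β)] [IsGalois F (TF β)] {p d f A : ℕ} (hp : p.Prime) (hd : 0 < d)
    (hf0 : 0 < f) (hf : Module.finrank ℚ F ≤ f) (hpf : 16 ^ f ≤ p)
    (hcen : ∀ σ τ : TF β ≃ₐ[F] TF β, σ ^ d * τ = τ * σ ^ d)
    (hA : β ^ (2 * p ^ (f ! * d + 1)) ≤ 4 ^ A) :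
    ∃ Q ∈ primesAbove (TF β) p,
      Module.finrank ℚ (TF β) ≤ A * f * Nat.card (Q.inertia (TF β ≃ₐ[F] TF β)) := by
  classical
  have h1β := hP.1
  set n := Module.finrank ℚ (TF β) with hn
  obtain ⟨S, hSc, hS⟩ := frobs (F := F) (L := TF β) hp hf hcen
  obtain ⟨Q, hQ, hmax⟩ := exists_max (L := TF β) hp
  set e := Q.ramificationIdx ℤ with he
  have he0 : 0 < e := (term_le (TF β) hp hQ).1
  obtain ⟨k, hk1, hk2⟩ : ∃ k : ℕ, e ≤ p ^ k ∧ p ^ k ≤ p * e := by
    refine ⟨Nat.clog p e, Nat.le_pow_clog hp.one_lt _, ?_⟩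
    rcases Nat.lt_or_ge 1 e with h | h
    · have h1 := Nat.pow_pred_clog_lt_self hp.one_lt h
      have h2 : 0 < Nat.clog p e := Nat.clog_pos hp.one_lt h
      have h3 : Nat.clog p e = (Nat.clog p e).pred + 1 := by
        rw [Nat.pred_eq_sub_one]; omega
      rw [h3, pow_succ, mul_comm]
      exact Nat.mul_le_mul_left _ h1.le
    · have h1 : e = 1 := by omega
      rw [h1, Nat.clog_one_right, pow_zero, mul_one]
      exact hp.pos
  have hram : (Ideal.span {(p : 𝓞 (TF β))}).radical ^ (p ^ k) ≤ Ideal.span {(p : 𝓞 (TF β))} :=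
    ramLe_of hp (fun P hP1 hpP => (hmax P ⟨hP1, hpP⟩).trans hk1)
  set m := f ! * d with hm
  have hm0 : 0 < m := Nat.mul_pos (Nat.factorial_pos f) hd
  set τ : (TF β ≃ₐ[F] TF β) → (TF β ≃ₐ[ℚ] TF β) := fun σ =>
    AlgEquiv.ofRingEquiv (f := σ.toRingEquiv) (fun q => by simp) with hτ
  have hcrit := prodCrit hP hrec hinf hp (i := m + k) (j := k) (S.image τ) (Or.inl (by omega))
    (by
      rw [Nat.add_sub_cancel]
      apply hram
      apply Ideal.pow_mem_pow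
      rw [Ideal.radical_eq_sInf, Ideal.mem_sInf]
      rintro J ⟨hJ1, hJ2⟩
      have hJp : (p : 𝓞 (TF β)) ∈ J := hJ1 (Ideal.subset_span rfl)
      obtain ⟨σ, hσS, hσ⟩ := hS J ⟨hJ2, hJp⟩
      rw [← Finset.mul_prod_erase _ _ (Finset.mem_image_of_mem τ hσS)]
      exact J.mul_mem_right _ (hσ _))
  have hcard : (S.image τ).card ≤ f := Finset.card_image_le.trans hSc
  have hM1 : p ^ (m + k) ≤ p ^ (m + 1) * e := by
    calc p ^ (m + k) = p ^ m * p ^ k := pow_add _ _ _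
      _ ≤ p ^ m * (p * e) := Nat.mul_le_mul_left _ hk2
      _ = p ^ (m + 1) * e := by rw [pow_succ]; ring
  have hM2 : p ^ k ≤ p ^ (m + 1) * e :=
    (Nat.pow_le_pow_right hp.pos (by omega)).trans hM1
  have hcost := cost_le h1β hM1 hM2 n
  have hge1 : (1 : ℝ) ≤ (U β (p ^ (m + k)) + 2) * (U β (p ^ k) + 2) / 16 * 4 ^ n := by
    have h0 : 0 < β := by linarith
    have h1 := U_two_le h0 (p ^ (m + k))
    have h2 := U_two_le h0 (p ^ k)
    have h3 : (1:ℝ) ≤ 4 ^ n := one_le_pow₀ (by norm_num)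
    have h4 : (1:ℝ) ≤ (U β (p ^ (m + k)) + 2) * (U β (p ^ k) + 2) / 16 := by nlinarith
    exact one_le_mul_of_one_le_of_one_le h4 h3
  have h3 : β ^ (2 * (p ^ (m + 1) * e)) = (β ^ (2 * p ^ (m + 1))) ^ e := by
    rw [← pow_mul, mul_assoc]
  have h4 : (β ^ (2 * p ^ (m + 1))) ^ e ≤ (4 ^ A) ^ e :=
    pow_le_pow_left₀ (by positivity) hA e
  have h5 : ((4:ℝ) ^ n * 4 ^ n) ^ f ≤ (4 ^ (A * e) * 4 ^ n) ^ f := by
    have h6 : ((4:ℝ) ^ n * 4 ^ n) ^ f = ((16:ℝ) ^ f) ^ n := by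
      rw [← mul_pow, ← pow_mul, ← pow_mul, mul_comm n f]; norm_num
    have h7 : ((16:ℝ) ^ f) ^ n ≤ (p : ℝ) ^ n :=
      pow_le_pow_left₀ (by positivity) (by exact_mod_cast hpf) n
    have h8 : ((U β (p ^ (m + k)) + 2) * (U β (p ^ k) + 2) / 16 * 4 ^ n) ^ (S.image τ).card ≤
        ((U β (p ^ (m + k)) + 2) * (U β (p ^ k) + 2) / 16 * 4 ^ n) ^ f :=
      pow_le_pow_right₀ hge1 hcard
    have h9 : ((U β (p ^ (m + k)) + 2) * (U β (p ^ k) + 2) / 16 * 4 ^ n) ^ f ≤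
        (β ^ (2 * (p ^ (m + 1) * e)) * 4 ^ n) ^ f :=
      pow_le_pow_left₀ (by linarith) hcost f
    have h10 : (β ^ (2 * (p ^ (m + 1) * e)) * 4 ^ n) ^ f ≤ (4 ^ (A * e) * 4 ^ n) ^ f := by
      apply pow_le_pow_left₀ (by positivity)
      rw [h3, pow_mul (4:ℝ) A e]
      exact mul_le_mul_of_nonneg_right h4 (by positivity)
    rw [h6]
    exact h7.trans (hcrit.trans (h8.trans (h9.trans h10)))
  have h6 : (4:ℝ) ^ n * 4 ^ n ≤ 4 ^ (A * e) * 4 ^ n :=
    (pow_le_pow_iff_left₀ (by positivity) (by positivity) hf0.ne').1 h5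
  have h8 : (4:ℝ) ^ n ≤ 4 ^ (A * e) := le_of_mul_le_mul_right h6 (by positivity)
  have h9 : n ≤ A * e := (pow_le_pow_iff_right₀ (by norm_num : (1:ℝ) < 4)).1 h8
  refine ⟨Q, hQ, h9.trans ?_⟩
  have h10 := ram_rel (F := F) hp hQ
  rw [mul_assoc]
  apply Nat.mul_le_mul_left
  exact h10.trans (Nat.mul_le_mul_right _ hf)

end Pool.Agent.J4H53.VG
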