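import Mathlib
import Pool.Agent.Q98.SG.F
import Pool.Agent.J4H53.VG.Step

/-!
# Parry powers and trace fields with large central subextensions
-/

set_option autoImplicit false

open NumberField
open scoped Pointwise Nat

namespace Pool.Agent.J4H53.VG

open Pool.Agent.W738.SAL Pool.Agent.Q98.SG

/-- a power of `4` above a power of `B` -/
theorem exists_A (B : ℝ) (m : ℕ) : ∃ A : ℕ, ∀ β : ℝ, 0 < β → β ≤ B → β ^ m ≤ 4 ^ A := by
  obtain ⟨A, hA⟩ := pow_unbounded_of_one_lt (B ^ m) (by norm_num : (1:ℝ) < 4)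
  exact ⟨A, fun β h0 hβ => (pow_le_pow_left₀ h0.le hβ m).trans hA.le⟩

/-- two coprime subgroup orders -/
theorem two_groups {G : Type*} [Group G] [Finite G] {p q : ℕ} (hp : p.Prime) (hq : q.Prime)
    (hpq : p ≠ q) {W V : Subgroup G} (hW : IsPGroup p W) (hV : IsPGroup q V) :
    Nat.card W * Nat.card V ≤ Nat.card G := by
  have := Fact.mk hp
  have := Fact.mk hq
  obtain ⟨a, ha⟩ := IsPGroup.iff_card.1 hW
  obtain ⟨b, hb⟩ := IsPGroup.iff_card.1 hV
  have h1 : (Nat.card W).Coprime (Nat.card V) := by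
    rw [ha, hb]
    exact Nat.Coprime.pow _ _ ((Nat.coprime_primes hp hq).2 hpq)
  exact Nat.le_of_dvd Nat.card_pos
    (h1.mul_dvd_of_dvd_of_dvd (Subgroup.card_subgroup_dvd_card W) (Subgroup.card_subgroup_dvd_card V))

/-- trace fields which are abelian over a subfield of bounded degree -/
theorem thmAb (B : ℝ) (f : ℕ) : ∃ N : ℕ, ∀ β : ℝ, IsPerron β → IsReciprocal β → β ≤ B →
    ∀ (F : Type) [Field F] [NumberField F] [Algebra F (TF β)] [IsGalois F (TF β)],
      Module.finrank ℚ F ≤ f → (∀ σ τ : TF β ≃ₐ[F] TF β, σ * τ = τ * σ) →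
      N ≤ Module.finrank ℚ (TF β) → (ParryPowers β).Finite := by
  obtain ⟨p, hpf, hp⟩ := Nat.exists_infinite_primes (16 ^ f)
  obtain ⟨q, hqf, hq⟩ := Nat.exists_infinite_primes (p + 1)
  obtain ⟨A, hA⟩ := exists_A B (2 * p ^ (f ! * 1 + 1))
  obtain ⟨C, hC⟩ := exists_A B (2 * q ^ (f ! * 1 + 1))
  refine ⟨(A * f * p ^ (f !)) * (C * f * q ^ (f !)) + 1, ?_⟩
  intro β hP hrec hβ F _ _ _ _ hf hcomm hn
  by_contra hinf
  have hfd : FiniteDimensional ℚ (TF β) := tf_finite hP hrec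
  have hnf : NumberField (TF β) := ⟨⟩
  have h0 : 0 < β := lt_trans one_pos hP.1
  have hF0 : 0 < Module.finrank ℚ F := Module.finrank_pos
  have hf0 : 0 < f := hF0.trans_le hf
  have hcen : ∀ σ τ : TF β ≃ₐ[F] TF β, σ ^ 1 * τ = τ * σ ^ 1 := fun σ τ => by
    rw [pow_one]; exact hcomm σ τ
  obtain ⟨Q, hQ, h1⟩ := inert_large hP hrec hinf hp one_pos hf0 hf hpf hcen (hA β h0 hβ)
  obtain ⟨R, hR, h2⟩ := inert_large hP hrec hinf hq one_pos hf0 hf (by omega) hcen (hC β h0 hβ)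
  obtain ⟨W, hW, h3⟩ := ab_bound hp hf hcomm hQ
  obtain ⟨V, hV, h4⟩ := ab_bound hq hf hcomm hR
  have h5 := two_groups hp hq (by omega) hW hV
  have h6 : Nat.card (TF β ≃ₐ[F] TF β) = Module.finrank F (TF β) :=
    IsGalois.card_aut_eq_finrank F (TF β)
  have h7 : Module.finrank ℚ F * Module.finrank F (TF β) = Module.finrank ℚ (TF β) :=
    Module.finrank_mul_finrank ℚ F (TF β)
  set n := Module.finrank ℚ (TF β) with hn'
  have h8 : Nat.card (TF β ≃ₐ[F] TF β) ≤ n := by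
    rw [h6, ← h7]
    exact Nat.le_mul_of_pos_left _ hF0
  have hn0 : 0 < n := Module.finrank_pos
  have h9 : n ≤ (A * f * p ^ (f !)) * Nat.card W := by
    calc n ≤ A * f * Nat.card (Q.inertia (TF β ≃ₐ[F] TF β)) := h1
      _ ≤ A * f * (p ^ (f !) * Nat.card W) := Nat.mul_le_mul_left _ h3
      _ = _ := by ring
  have h10 : n ≤ (C * f * q ^ (f !)) * Nat.card V := by
    calc n ≤ C * f * Nat.card (R.inertia (TF β ≃ₐ[F] TF β)) := h2
      _ ≤ C * f * (q ^ (f !) * Nat.card V) := Nat.mul_le_mul_left _ h4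
      _ = _ := by ring
  have h11 : n * n ≤ ((A * f * p ^ (f !)) * (C * f * q ^ (f !))) * n := by
    calc n * n ≤ ((A * f * p ^ (f !)) * Nat.card W) * ((C * f * q ^ (f !)) * Nat.card V) :=
          Nat.mul_le_mul h9 h10
      _ = ((A * f * p ^ (f !)) * (C * f * q ^ (f !))) * (Nat.card W * Nat.card V) := by ring
      _ ≤ _ := Nat.mul_le_mul_left _ (h5.trans h8)
  have h12 := Nat.le_of_mul_le_mul_right h11 hn0
  omega

/-- trace fields which are Galois over a subfield of bounded degree, with finite exponent modulo the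
centre -/
theorem thmCen (B : ℝ) (d f : ℕ) (hd : 0 < d) : ∃ N : ℕ, ∀ β : ℝ, IsPerron β → IsReciprocal β →
    β ≤ B → ∀ (F : Type) [Field F] [NumberField F] [Algebra F (TF β)] [IsGalois F (TF β)],
      Module.finrank ℚ F ≤ f → (∀ σ τ : TF β ≃ₐ[F] TF β, σ ^ d * τ = τ * σ ^ d) →
      N ≤ Module.finrank ℚ (TF β) → (ParryPowers β).Finite := by
  obtain ⟨p, hpf', hp⟩ := Nat.exists_infinite_primes (16 ^ f + (d + 1))
  have hpf : 16 ^ f ≤ p := (Nat.le_add_right _ _).trans hpf'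
  have hdp : d < p := (Nat.le_add_left (d + 1) (16 ^ f)).trans hpf'
  obtain ⟨A, hA⟩ := exists_A B (2 * p ^ (f ! * d + 1))
  obtain ⟨N, hN⟩ := thmAb B (A * f * d)
  refine ⟨N, ?_⟩
  intro β hP hrec hβ F _ _ _ _ hf hcen hn
  by_contra hinf
  have hfd : FiniteDimensional ℚ (TF β) := tf_finite hP hrec
  have hnf : NumberField (TF β) := ⟨⟩
  have h0 : 0 < β := lt_trans one_pos hP.1
  have hF0 : 0 < Module.finrank ℚ F := Module.finrank_pos
  have hf0 : 0 < f := hF0.trans_le hf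
  obtain ⟨Q, hQ, h1⟩ := inert_large hP hrec hinf hp hd hf0 hf hpf hcen (hA β h0 hβ)
  have hQ1 := hQ.1
  have hQ0 : Q ≠ ⊥ := ne_bot_of hp hQ
  have : Finite (𝓞 (TF β) ⧸ Q) := Ideal.finiteQuotientOfFreeOfNeBot Q hQ0
  have hfa : FaithfulSMul (TF β ≃ₐ[F] TF β) (𝓞 (TF β)) :=
    (inferInstance : IsGaloisGroup (TF β ≃ₐ[F] TF β) (𝓞 F) (𝓞 (TF β))).faithful
  have h2 : Nat.card (Q.inertia (TF β ≃ₐ[F] TF β)) ≤
      d * Nat.card (Subgroup.center (TF β ≃ₐ[F] TF β)) :=
    inertia_card_le (G := TF β ≃ₐ[F] TF β) hQ0 hp hQ.2 hd hdp hcen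
  set Z := Subgroup.center (TF β ≃ₐ[F] TF β) with hZ
  set E := IntermediateField.fixedField Z with hE
  have hnE : NumberField E := NumberField.of_intermediateField E
  have hGE : IsGalois E (TF β) := IsGalois.tower_top_intermediateField E
  have h3 : Module.finrank E (TF β) = Nat.card Z := IntermediateField.finrank_fixedField_eq_card Z
  have h4 : Module.finrank ℚ E * Module.finrank E (TF β) = Module.finrank ℚ (TF β) :=
    Module.finrank_mul_finrank ℚ E (TF β)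
  have hZ0 : 0 < Nat.card Z := Nat.card_pos
  have h5 : Module.finrank ℚ E ≤ A * f * d := by
    have h6 : Module.finrank ℚ E * Nat.card Z ≤ (A * f * d) * Nat.card Z := by
      calc Module.finrank ℚ E * Nat.card Z = Module.finrank ℚ (TF β) := by rw [← h3, h4]
        _ ≤ A * f * Nat.card (Q.inertia (TF β ≃ₐ[F] TF β)) := h1
        _ ≤ A * f * (d * Nat.card Z) := Nat.mul_le_mul_left _ h2
        _ = _ := by ring
    exact Nat.le_of_mul_le_mul_right h6 hZ0
  have hcomm : ∀ σ τ : TF β ≃ₐ[E] TF β, σ * τ = τ * σ := by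
    intro σ τ
    have h7 : ∀ σ : TF β ≃ₐ[E] TF β, ∃ s ∈ Z, ∀ x, s x = σ x := by
      intro σ
      let e := IntermediateField.subgroupEquivAlgEquiv Z
      obtain ⟨s, hs⟩ := e.surjective σ
      refine ⟨s.1, s.2, fun x => ?_⟩
      rw [← hs]
      rfl
    obtain ⟨s, hs, hs'⟩ := h7 σ
    obtain ⟨t, ht, ht'⟩ := h7 τ
    have h8 : s * t = t * s := (Subgroup.mem_center_iff.1 ht) s
    ext x
    have h9 := congrArg (fun g : TF β ≃ₐ[F] TF β => g x) h8
    simp only [AlgEquiv.mul_apply] at h9 ⊢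
    rw [← hs', ← ht', ← ht', ← hs']
    rw [h9]
  exact hinf (hN β hP hrec hβ E h5 hcomm hn)

end Pool.Agent.J4H53.VG
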