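import Mathlib
import Pool.Agent.J4H53.VG.Main

/-!
# Finitely many Perron numbers of bounded degree and size; the final form
-/

set_option autoImplicit false

open NumberField Polynomial
open scoped Pointwise Nat

namespace Pool.Agent.J4H53.VG

open Pool.Agent.W738.SAL Pool.Agent.Q98.SG

/-- Perron numbers of bounded size and degree -/
theorem perron_finite (B : ℝ) (D : ℕ) :
    {β : ℝ | IsPerron β ∧ β ≤ B ∧ (minpoly ℤ β).natDegree ≤ D}.Finite := by
  classical
  obtain ⟨C, hC⟩ := exists_nat_ge (max B 1 ^ D * D.choose (D / 2))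
  refine (Polynomial.bUnion_roots_finite (Int.castRingHom ℝ) D
    (Set.finite_Icc (-(C : ℤ)) (C : ℤ))).subset ?_
  rintro β ⟨hP, hβ, hD⟩
  have hm := minpoly.monic hP.2.1
  rw [Set.mem_iUnion₂]
  refine ⟨minpoly ℤ β, ⟨hD, fun i => ?_⟩, ?_⟩
  · have h1 := coeff_bdd_of_roots_le (B := B) (d := D) (Int.castRingHom ℂ) hm
      (IsAlgClosed.splits _) hD (by
        intro z hz
        have hz1 : aeval z (minpoly ℤ β) = 0 := by
          have := (mem_roots'.1 hz).2
          rw [IsRoot.def, eval_map] at this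
          rw [aeval_def]
          exact this
        by_cases hzb : z = (β : ℂ)
        · rw [hzb, Complex.norm_real, Real.norm_eq_abs, abs_of_pos (lt_trans one_pos hP.1)]
          exact hβ
        · exact (hP.2.2 z hz1 hzb).le.trans hβ) i
    rw [coeff_map] at h1
    have h2 : ‖((minpoly ℤ β).coeff i : ℂ)‖ ≤ C := by
      have : (Int.castRingHom ℂ) ((minpoly ℤ β).coeff i) = (((minpoly ℤ β).coeff i : ℤ) : ℂ) := rfl
      rw [this] at h1
      exact h1.trans hC
    rw [Complex.norm_intCast] at h2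
    have h3 : |(minpoly ℤ β).coeff i| ≤ (C : ℤ) := by exact_mod_cast h2
    exact Set.mem_Icc.2 (abs_le.1 h3)
  · simp only [Finset.mem_coe, Multiset.mem_toFinset]
    rw [mem_roots (hm.map _).ne_zero, IsRoot.def, eval_map]
    have := minpoly.aeval ℤ β
    rw [aeval_def] at this
    exact this

/-- the degree of `β` over the degree of its trace field -/
theorem deg_le {β : ℝ} (hP : IsPerron β) (hrec : IsReciprocal β) :
    (minpoly ℤ β).natDegree ≤ 2 * Module.finrank ℚ (TF β) := by
  have hfd : FiniteDimensional ℚ (TF β) := tf_finite hP hrec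
  have h0 : β ≠ 0 := (lt_trans one_pos hP.1).ne'
  have ht : β + β⁻¹ ∈ TF β := IntermediateField.subset_adjoin _ _ rfl
  let t : TF β := ⟨β + β⁻¹, ht⟩
  let q : (TF β)[X] := X ^ 2 - C t * X + 1
  have hq : aeval β q = 0 := by
    have h1 : algebraMap (TF β) ℝ t = β + β⁻¹ := rfl
    simp only [q, map_add, map_sub, map_mul, map_pow, aeval_X, aeval_C, map_one, h1]
    field_simp
    ring
  have hqd : q.natDegree = 2 := by
    simp only [q]
    compute_degree!
  have hqm : q.Monic := by
    simp only [q]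
    monicity!
  have hint : IsIntegral (TF β) β := ⟨q, hqm, by rw [← aeval_def]; exact hq⟩
  have h1 : (minpoly (TF β) β).natDegree ≤ 2 := by
    rw [← hqd]
    exact natDegree_le_natDegree (minpoly.min _ _ hqm hq)
  let E := IntermediateField.adjoin (TF β) {β}
  have hE : Module.finrank (TF β) E ≤ 2 := by
    rw [IntermediateField.adjoin.finrank hint]
    exact h1
  have hEf : FiniteDimensional (TF β) E := IntermediateField.adjoin.finiteDimensional hint
  have hEQ : FiniteDimensional ℚ E := FiniteDimensional.trans ℚ (TF β) E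
  have h2 : Module.finrank ℚ (TF β) * Module.finrank (TF β) E = Module.finrank ℚ E :=
    Module.finrank_mul_finrank ℚ (TF β) E
  have hb : β ∈ E := IntermediateField.subset_adjoin _ _ rfl
  have h3 : (minpoly ℚ (⟨β, hb⟩ : E)).natDegree ≤ Module.finrank ℚ E := minpoly.natDegree_le _
  have h4 : minpoly ℚ (⟨β, hb⟩ : E) = minpoly ℚ β :=
    (minpoly.algebraMap_eq (algebraMap E ℝ).injective (⟨β, hb⟩ : E)).symm
  have h5 : (minpoly ℤ β).natDegree = (minpoly ℚ β).natDegree := by
    rw [minpoly.isIntegrallyClosed_eq_field_fractions' ℚ hP.2.1]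
    exact ((minpoly.monic hP.2.1).natDegree_map _).symm
  rw [h5, ← h4]
  refine h3.trans ?_
  rw [← h2, mul_comm]
  exact Nat.mul_le_mul_right _ hE

/-- the final form, with a group of automorphisms of the trace field -/
theorem thmH (B : ℝ) (d f : ℕ) (hd : 0 < d) : ∃ N : ℕ, ∀ β : ℝ, IsPerron β → IsReciprocal β →
    β ≤ B → ∀ H : Subgroup (TF β ≃ₐ[ℚ] TF β), Module.finrank ℚ (TF β) ≤ f * Nat.card H →
      (∀ σ ∈ H, ∀ τ ∈ H, σ ^ d * τ = τ * σ ^ d) → N ≤ Module.finrank ℚ (TF β) →
      (ParryPowers β).Finite := by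
  obtain ⟨N, hN⟩ := thmCen B d f hd
  refine ⟨N, ?_⟩
  intro β hP hrec hβ H hH hcen hn
  have hfd : FiniteDimensional ℚ (TF β) := tf_finite hP hrec
  have hnf : NumberField (TF β) := ⟨⟩
  set E := IntermediateField.fixedField H with hE
  have hnE : NumberField E := NumberField.of_intermediateField E
  have h3 : Module.finrank E (TF β) = Nat.card H := IntermediateField.finrank_fixedField_eq_card H
  let e := IntermediateField.subgroupEquivAlgEquiv H
  have hGE : IsGalois E (TF β) := by
    apply IsGalois.of_card_aut_eq_finrank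
    rw [h3]
    exact (Nat.card_congr e.toEquiv).symm
  have h4 : Module.finrank ℚ E * Module.finrank E (TF β) = Module.finrank ℚ (TF β) :=
    Module.finrank_mul_finrank ℚ E (TF β)
  have hH0 : 0 < Nat.card H := Nat.card_pos
  have h5 : Module.finrank ℚ E ≤ f := by
    rw [← h4, h3] at hH
    exact Nat.le_of_mul_le_mul_right hH hH0
  refine hN β hP hrec hβ E h5 ?_ hn
  intro σ τ
  obtain ⟨s, rfl⟩ := e.surjective σ
  obtain ⟨t, rfl⟩ := e.surjective τ
  rw [← map_pow, ← map_mul, ← map_mul]
  congr 1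
  exact Subtype.ext (hcen s.1 s.2 t.1 t.2)

/-- finitely many exceptions -/
theorem final (B : ℝ) (d f : ℕ) (hd : 0 < d) :
    {β : ℝ | IsPerron β ∧ IsReciprocal β ∧ β ≤ B ∧ ¬ (ParryPowers β).Finite ∧
      ∃ H : Subgroup (TF β ≃ₐ[ℚ] TF β), Module.finrank ℚ (TF β) ≤ f * Nat.card H ∧
        ∀ σ ∈ H, ∀ τ ∈ H, σ ^ d * τ = τ * σ ^ d}.Finite := by
  obtain ⟨N, hN⟩ := thmH B d f hd
  refine (perron_finite B (2 * N)).subset ?_
  rintro β ⟨hP, hrec, hβ, hinf, H, hH, hcen⟩
  refine ⟨hP, hβ, (deg_le hP hrec).trans (Nat.mul_le_mul_left 2 ?_)⟩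
  by_contra hcon
  push Not at hcon
  exact hinf (hN β hP hrec hβ H hH hcen hcon.le)

end Pool.Agent.J4H53.VG
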